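import Pool.Agent.H16.SC.Targets

/-!
MP_f2954d_ag, block B1: modules KLL, KLR, KPS, KPM, KPA, KDM, KMO.
-/

set_option autoImplicit false

namespace Pool.Agent.H73.SC

open SCB Filter Topology

/-- KLL -/
theorem kll : T_LL := by
  intro N q q₀ hq hlim x y hx
  have h1 : ∀ᶠ k in atTop, 0 < q k x x := (hlim x x).eventually (lt_mem_nhds hx)
  refine le_of_tendsto_of_tendsto ((hlim x x).mul (hlim y y)) ((hlim x y).pow 2) ?_
  filter_upwards [h1] with k hk
  exact hq k x y hk

/-- KLR -/
theorem klr : T_LR := by
  intro N _ _ q hs hL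
  have p1 : ∀ x y, 0 < q x x → q x y = 0 → q y y ≤ 0 := by
    intro x y hx hxy
    have h1 := hL x y hx
    rw [hxy] at h1
    by_contra hno
    push Not at hno
    have := mul_pos hx hno
    linarith
  refine ⟨p1, ?_, ?_⟩
  · intro x y hx hxy hyy z
    let z' : N := z - (q x z / q x x) • x
    have h1 : q x z' = 0 := by
      simp only [z']
      rw [hs.sub', hs.smul']
      field_simp
      ring
    have hyx : q y x = 0 := by rw [hs.symm, hxy]
    have h2 : q y z' = q y z := by
      simp only [z']
      rw [hs.sub', hs.smul', hyx]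
      ring
    have h3 : ∀ t : ℝ, 2 * t * q y z' + q z' z' ≤ 0 := by
      intro t
      have h4 : q x (t • y + z') = 0 := by
        rw [hs.add', hs.smul', hxy, h1]
        ring
      have h5 := p1 x (t • y + z') hx h4
      have h6 : q (t • y + z') (t • y + z') = 2 * t * q y z' + q z' z' := by
        rw [hs.add, hs.add', hs.add', hs.smul, hs.smul', hs.smul, hs.smul', hyy, hs.symm z' y]
        ring
      linarith
    rw [← h2]
    by_contra hne
    have h7 := h3 ((1 - q z' z') / (2 * q y z'))
    have h8 : 2 * ((1 - q z' z') / (2 * q y z')) * q y z' = 1 - q z' z' := by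
      field_simp
    rw [h8] at h7
    linarith
  · intro g a x hg hga haa
    let c : ℝ := q g x / q g a
    have h1 : q g (x - c • a) = 0 := by
      rw [hs.sub', hs.smul']
      simp only [c]
      field_simp
      ring
    have h2 := p1 g (x - c • a) hg h1
    have h3 : q (x - c • a) (x - c • a) = q x x - 2 * c * q a x + c ^ 2 * q a a := by
      rw [hs.sub, hs.sub', hs.sub', hs.smul, hs.smul', hs.smul', hs.smul, hs.symm x a]
      ring
    have h4 : 0 ≤ c ^ 2 * q a a := by positivity
    change q x x ≤ 2 * c * q a x
    linarith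

section

variable {N P : Type} [NormedAddCommGroup N] [NormedSpace ℝ N] {n : ℕ} (X : Geo N P n)

/-- KPS -/
theorem kps (hAP : T_AP) (hCT : T_CT) : T_PS := by
  intro N P _ _ _ n X
  refine ⟨?_, ?_, ?_, ?_, ?_⟩
  · intro s hs hnef
    obtain ⟨σ, h1, h2, h3⟩ := hAP N P n X s hnef
    have h4 := hCT N P n X ℕ atTop σ s h3 hs
    exact ge_of_tendsto' h4 fun k => (X.pos (σ k) ((h2 k).trans hs) (h1 k)).le
  · intro D s hs hnef
    obtain ⟨σ, h1, h2, h3⟩ := hAP N P n X s hnef
    have h4 := hCT N P n X ℕ atTop (fun k => X.cl D ::ₘ σ k) (X.cl D ::ₘ s)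
      (MT.cons tendsto_const_nhds h3) (by simpa using hs)
    exact ge_of_tendsto' h4 fun k => (X.posD D (σ k) (by rw [h2 k]; exact hs) (h1 k)).le
  · intro D D' hD s hs hnef
    obtain ⟨σ, h1, h2, h3⟩ := hAP N P n X s hnef
    have h4 := hCT N P n X ℕ atTop (fun k => X.cl D ::ₘ X.cl D' ::ₘ σ k) (X.cl D ::ₘ X.cl D' ::ₘ s)
      (MT.cons tendsto_const_nhds (MT.cons tendsto_const_nhds h3)) (by simpa using hs)
    exact ge_of_tendsto' h4 fun k => X.nonnegDD D D' hD (σ k) (by rw [h2 k]; exact hs) (h1 k)
  · intro s hs hnef
    obtain ⟨σ, h1, h2, h3⟩ := hAP N P n X s hnef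
    refine kll N (fun k => X.q (σ k)) (X.q s) (fun k => ?_) (fun x y => ?_)
    · exact X.lor (σ k) (by rw [h2 k]; exact hs) (h1 k)
    · exact hCT N P n X ℕ atTop (fun k => x ::ₘ y ::ₘ σ k) (x ::ₘ y ::ₘ s)
        (MT.cons tendsto_const_nhds (MT.cons tendsto_const_nhds h3)) (by simpa using hs)
  · intro D s hs hnef
    obtain ⟨σ, h1, h2, h3⟩ := hAP N P n X s hnef
    refine kll N (fun k x y => X.I (X.cl D ::ₘ x ::ₘ y ::ₘ σ k)) _ (fun k => ?_) (fun x y => ?_)
    · exact X.lorD D (σ k) (by rw [h2 k]; exact hs) (h1 k)
    · exact hCT N P n X ℕ atTop (fun k => X.cl D ::ₘ x ::ₘ y ::ₘ σ k) (X.cl D ::ₘ x ::ₘ y ::ₘ s)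
        (MT.cons tendsto_const_nhds (MT.cons tendsto_const_nhds (MT.cons tendsto_const_nhds h3)))
        (by simpa using hs)

/-- KPM -/
theorem kpm (hPS : T_PS) : T_PM := by
  intro N P _ _ _ n X
  obtain ⟨p1, -⟩ := hPS N P n X
  refine ⟨?_, ?_, ?_, ?_⟩
  · intro W s hW hs t hc ht
    rw [add_assoc]
    refine hW (s + t) ?_ ?_
    · rw [Multiset.card_add] at hc ⊢
      omega
    · intro a ha
      rcases Multiset.mem_add.1 ha with h | h
      · exact hs a h
      · exact ht a h
  · intro s hs t hc ht
    refine p1 (s + t) ?_ ?_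
    · rw [Multiset.card_add]
      exact hc
    · intro a ha
      rcases Multiset.mem_add.1 ha with h | h
      · exact hs a h
      · exact ht a h
  · intro x s hx hs t hc ht
    rw [Multiset.cons_add]
    refine hx (s + t) ?_ ?_
    · rw [Multiset.card_cons] at hc
      rw [Multiset.card_add]
      omega
    · intro a ha
      rcases Multiset.mem_add.1 ha with h | h
      · exact hs a h
      · exact ht a h
  · intro W a b hW hab s hc hs
    have h1 := X.I_sub b a (s := W + s) (by rw [Multiset.card_add]; omega)
    have h2 := hW ((b - a) ::ₘ s) (by rw [Multiset.card_cons]; omega) (by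
      intro c hc'
      rcases Multiset.mem_cons.1 hc' with rfl | h
      · exact hab
      · exact hs c h)
    rw [Multiset.add_cons, h1] at h2
    linarith

/-- comparison with ample classes -/
lemma amp_cmp (hCN : T_CN) (N P : Type) [NormedAddCommGroup N] [NormedSpace ℝ N]
    [FiniteDimensional ℝ N] (n : ℕ) (X : Geo N P n) (a : N) (ha : a ∈ X.Amp) (g : N) :
    ∃ c : ℝ, 0 < c ∧ c • a - g ∈ X.Nef := by
  obtain ⟨c1, c2, c3, c4, c5, c6⟩ := hCN N P n X
  obtain ⟨C, hC, h⟩ := c4 a ha
  refine ⟨C * ‖-g‖ + C, by positivity, ?_⟩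
  have h1 : (C * ‖-g‖ + C) • a - g = ((C * ‖-g‖) • a + -g) + C • a := by
    rw [add_smul]
    abel
  rw [h1]
  exact c1 _ (h (-g)) _ (c2 a (interior_subset ha) C hC.le)

/-- KPA -/
theorem kpa (hCN : T_CN) (hPS : T_PS) : T_PA := by
  intro N P _ _ _ n X
  obtain ⟨c1, c2, c3, c4, c5, c6⟩ := hCN N P n X
  obtain ⟨p1, p2, -⟩ := hPS N P n X
  obtain ⟨g, hg⟩ := X.G_nonempty
  have hgn : g ∈ X.Nef := interior_subset (c3 g hg)
  -- step
  have step : ∀ (Z : Multiset N) (a : N), a ∈ X.Amp → Z.card + 1 = n →
      (∀ b : N, b ∈ X.Nef → 0 ≤ X.I (b ::ₘ Z)) → 0 < X.I (g ::ₘ Z) → 0 < X.I (a ::ₘ Z) := by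
    intro Z a ha hZ hnn hpos
    obtain ⟨c, hc, h⟩ := amp_cmp hCN N P n X a ha g
    have h1 := hnn _ h
    rw [X.I_sub _ _ hZ, X.I_smul _ _ hZ] at h1
    have h2 : 0 < c * X.I (a ::ₘ Z) := by linarith
    exact (mul_pos_iff_of_pos_left hc).1 h2
  constructor
  · have key : ∀ (s : Multiset N) (j : ℕ), s.card + j = n → (∀ a ∈ s, a ∈ X.Amp) →
        0 < X.I (s + Multiset.replicate j g) := by
      intro s
      induction s using Multiset.induction_on with
      | empty =>
        intro j hj _
        rw [zero_add]
        refine X.pos _ (by simpa using hj) fun a ha => ?_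
        rw [Multiset.eq_of_mem_replicate ha]
        exact hg
      | cons a s ih =>
        intro j hj hs
        rw [Multiset.card_cons] at hj
        rw [Multiset.cons_add]
        refine step _ a (hs a (Multiset.mem_cons_self a s)) ?_ ?_ ?_
        · rw [Multiset.card_add, Multiset.card_replicate]
          omega
        · intro b hb
          refine p1 _ ?_ ?_
          · rw [Multiset.card_cons, Multiset.card_add, Multiset.card_replicate]
            omega
          · intro x hx
            rcases Multiset.mem_cons.1 hx with rfl | h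
            · exact hb
            · rcases Multiset.mem_add.1 h with h | h
              · exact interior_subset (hs x (Multiset.mem_cons_of_mem h))
              · rw [Multiset.eq_of_mem_replicate h]
                exact hgn
        · have := ih (j + 1) (by omega) fun b hb => hs b (Multiset.mem_cons_of_mem hb)
          rw [Multiset.replicate_succ, Multiset.add_cons] at this
          exact this
    intro s hs hamp
    have := key s 0 (by omega) hamp
    simpa using this
  · intro D
    have key : ∀ (s : Multiset N) (j : ℕ), s.card + j + 1 = n → (∀ a ∈ s, a ∈ X.Amp) →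
        0 < X.I (X.cl D ::ₘ (s + Multiset.replicate j g)) := by
      intro s
      induction s using Multiset.induction_on with
      | empty =>
        intro j hj _
        rw [zero_add]
        refine X.posD D _ (by simpa using hj) fun a ha => ?_
        rw [Multiset.eq_of_mem_replicate ha]
        exact hg
      | cons a s ih =>
        intro j hj hs
        rw [Multiset.card_cons] at hj
        rw [Multiset.cons_add, Multiset.cons_swap]
        refine step _ a (hs a (Multiset.mem_cons_self a s)) ?_ ?_ ?_
        · rw [Multiset.card_cons, Multiset.card_add, Multiset.card_replicate]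
          omega
        · intro b hb
          rw [Multiset.cons_swap]
          refine p2 D _ ?_ ?_
          · rw [Multiset.card_cons, Multiset.card_add, Multiset.card_replicate]
            omega
          · intro x hx
            rcases Multiset.mem_cons.1 hx with rfl | h
            · exact hb
            · rcases Multiset.mem_add.1 h with h | h
              · exact interior_subset (hs x (Multiset.mem_cons_of_mem h))
              · rw [Multiset.eq_of_mem_replicate h]
                exact hgn
        · have := ih (j + 1) (by omega) fun b hb => hs b (Multiset.mem_cons_of_mem hb)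
          rw [Multiset.replicate_succ, Multiset.add_cons] at this
          rw [Multiset.cons_swap]
          exact this
    intro s hs hamp
    have := key s 0 (by omega) hamp
    simpa using this

/-- KDM -/
theorem kdm (hCN : T_CN) (hPM : T_PM) : T_DM := by
  intro N P _ _ _ n X
  obtain ⟨c1, c2, c3, c4, c5, c6⟩ := hCN N P n X
  obtain ⟨m1, m2, m3, m4⟩ := hPM N P n X
  have nefc : ∀ T : Multiset N, (∀ a ∈ T, a ∈ X.Amp) → ∀ W : Multiset N, X.PosM W →
      W.card + T.card = n → X.I (W + T) = 0 → ∀ s : Multiset N, s.card = T.card →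
      (∀ a ∈ s, a ∈ X.Nef) → X.I (W + s) = 0 := by
    intro T
    induction T using Multiset.induction_on with
    | empty =>
      intro _ W _ _ h0 s hs _
      rw [Multiset.card_zero, Multiset.card_eq_zero] at hs
      rw [hs]
      exact h0
    | cons a T ih =>
      intro hT W hW hc h0 s hs hsn
      rw [Multiset.card_cons] at hs hc
      obtain ⟨b, s', rfl⟩ : ∃ b s', s = b ::ₘ s' := by
        have : s ≠ 0 := by
          intro h
          rw [h, Multiset.card_zero] at hs
          omega
        obtain ⟨b, hb⟩ := Multiset.exists_mem_of_ne_zero this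
        obtain ⟨s', hs'⟩ := Multiset.exists_cons_of_mem hb
        exact ⟨b, s', hs'⟩
      have hbn : b ∈ X.Nef := hsn b (Multiset.mem_cons_self b s')
      have hTn : ∀ x ∈ T, x ∈ X.Nef := fun x hx =>
        interior_subset (hT x (Multiset.mem_cons_of_mem hx))
      obtain ⟨c, hc0, hcn⟩ := amp_cmp hCN N P n X a (hT a (Multiset.mem_cons_self a T)) b
      have hW' : X.PosM (W + {b}) := m1 W {b} hW (by simpa using hbn)
      have e1 : ∀ Z : Multiset N, W + {b} + Z = b ::ₘ (W + Z) := by
        intro Z
        rw [add_assoc, Multiset.singleton_add, Multiset.add_cons]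
      have h1 : X.I (b ::ₘ (W + T)) ≤ 0 := by
        have h2 := m4 W b (c • a) hW hcn T (by omega) hTn
        rw [X.I_smul _ _ (by rw [Multiset.card_add]; omega)] at h2
        rw [Multiset.add_cons] at h0
        rw [h0, mul_zero] at h2
        exact h2
      have h3 : 0 ≤ X.I (b ::ₘ (W + T)) := by
        rw [← e1]
        refine hW' T ?_ hTn
        rw [Multiset.card_add, Multiset.card_singleton]
        omega
      have h4 := ih (fun x hx => hT x (Multiset.mem_cons_of_mem hx)) (W + {b}) hW'
        (by rw [Multiset.card_add, Multiset.card_singleton]; omega)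
        (by rw [e1]; linarith) s' (by rw [Multiset.card_cons] at hs; omega)
        (fun x hx => hsn x (Multiset.mem_cons_of_mem hx))
      rw [e1] at h4
      rw [Multiset.add_cons]
      exact h4
  intro W T hW hT hc h0
  obtain ⟨g, hg⟩ := X.G_nonempty
  have key : ∀ (s₂ s₁ : Multiset N), (∀ a ∈ s₁, a ∈ X.Nef) → s₁.card + s₂.card = T.card →
      X.I (W + (s₁ + s₂)) = 0 := by
    intro s₂
    induction s₂ using Multiset.induction_on with
    | empty =>
      intro s₁ h1 h2
      rw [add_zero]
      exact nefc T hT W hW hc h0 s₁ (by simpa using h2) h1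
    | cons x s₂ ih =>
      intro s₁ h1 h2
      rw [Multiset.card_cons] at h2
      obtain ⟨c, hc0, hcn⟩ := amp_cmp hCN N P n X g (c3 g hg) x
      have hgn : c • g ∈ X.Nef := c2 g (interior_subset (c3 g hg)) c hc0.le
      have e1 : x = c • g - (c • g - x) := by abel
      have h3 : ∀ y, W + (s₁ + (y ::ₘ s₂)) = y ::ₘ (W + (s₁ + s₂)) := by
        intro y
        rw [Multiset.add_cons, Multiset.add_cons]
      have h4 : ∀ y, W + ((y ::ₘ s₁) + s₂) = y ::ₘ (W + (s₁ + s₂)) := by
        intro y
        rw [Multiset.cons_add, Multiset.add_cons]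
      rw [h3]
      conv_lhs => rw [e1]
      rw [X.I_sub _ _ (by rw [Multiset.card_add, Multiset.card_add]; omega), ← h4, ← h4]
      rw [ih (c • g ::ₘ s₁) ?_ ?_, ih ((c • g - x) ::ₘ s₁) ?_ ?_, sub_zero]
      · intro a ha
        rcases Multiset.mem_cons.1 ha with rfl | h
        · exact hcn
        · exact h1 a h
      · rw [Multiset.card_cons]
        omega
      · intro a ha
        rcases Multiset.mem_cons.1 ha with rfl | h
        · exact hgn
        · exact h1 a h
      · rw [Multiset.card_cons]
        omega
  intro s hs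
  have := key s 0 (by simp) (by simpa using hs)
  rwa [zero_add] at this

/-- KMO -/
theorem kmo (hPM : T_PM) : T_MO := by
  intro N P ι _ _ _ _ _ n X W L L' hW hL hL' hcmp hc hpos
  obtain ⟨m1, m2, m3, m4⟩ := hPM N P n X
  have key : ∀ S : Finset ι, 0 < X.I (W + (mss S L' + mss Sᶜ L)) := by
    intro S
    induction S using Finset.induction_on with
    | empty =>
      rw [mss_empty, zero_add, Finset.compl_empty, ← ms_eq_mss]
      exact hpos
    | insert i S hi ih =>
      obtain ⟨c, hc0, hcn⟩ := hcmp i
      have hiS : i ∈ Sᶜ := Finset.mem_compl.2 hi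
      have e1 : (insert i S)ᶜ = Sᶜ.erase i := by
        ext j
        simp only [Finset.mem_compl, Finset.mem_insert, Finset.mem_erase]
        tauto
      have h1 := m4 W (L i) (c • L' i) hW hcn (mss S L' + mss (Sᶜ.erase i) L) ?_ ?_
      · rw [X.I_smul] at h1
        · rw [mss_erase Sᶜ L hiS, Multiset.add_cons, Multiset.add_cons] at ih
          rw [mss_insert _ _ hi, e1, Multiset.cons_add, Multiset.add_cons]
          have h2 : 0 < c * X.I (L' i ::ₘ (W + (mss S L' + mss (Sᶜ.erase i) L))) := by linarith
          exact (mul_pos_iff_of_pos_left hc0).1 h2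
        · have h5 := Finset.card_add_card_compl S
          have h6 := Finset.card_erase_of_mem hiS
          have h7 := Finset.card_pos.2 ⟨i, hiS⟩
          rw [Multiset.card_add, Multiset.card_add, card_mss, card_mss]
          omega
      · have h5 := Finset.card_add_card_compl S
        have h6 := Finset.card_erase_of_mem hiS
        have h7 := Finset.card_pos.2 ⟨i, hiS⟩
        rw [Multiset.card_add, card_mss, card_mss]
        omega
      · intro a ha
        rcases Multiset.mem_add.1 ha with h | h
        · obtain ⟨j, -, rfl⟩ := (mem_mss _ _ _).1 h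
          exact hL' j
        · obtain ⟨j, -, rfl⟩ := (mem_mss _ _ _).1 h
          exact hL j
  have := key Finset.univ
  rw [Finset.compl_univ, mss_empty, add_zero, ← ms_eq_mss] at this
  exact this

end

end Pool.Agent.H73.SC
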